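import Pool.Agent.R81.EV.K6.Fin
import Pool.Agent.R81.EV.K8.Fin
import Pool.Agent.R81.EV.K10.Fin
import Pool.Agent.R81.EV.K12.Fin

/-!
# `π(K_{k+1}^k) ≤ 1 - 1/k - c/k³` for `k = 6, 8, 10, 12`, with `c` about `3.59, 3.52, 3.26, 2.98`

The notions are those of `Pool.Agent.H120R2.CliqueDefs`: `ex n k m = ex(n, K_m^k)` and
`turanDensity k m = π(K_m^k)`. De Caen's bound (1983) is `π(K_{k+1}^k) ≤ 1 - 1/k`, that is
`0.83334, 0.875, 0.9, 0.91667` for the four values of `k`.

Outline. Let `T` be the `k`-graph of the non-edges of a `K_{k+1}^k`-free `k`-graph: every `k + 1`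
vertices contain at least one member of `T`. The links of the `(k-3)`-sets of vertices are 3-graphs.
For every 3-graph, a sum of squares certificate on six vertices (one for each `k`, checked by the
kernel on all 3-graphs with six vertices) bounds the average of a function `v` of the number of
edges spanned by four vertices. The average over all links is an average over the `(k+1)`-sets of a
polynomial in the number of members of `T` in the set, and this number is at least one.
-/

set_option autoImplicit false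

open Filter Topology

namespace Pool.Agent.Results.MP_a4d830_co.EvenUniformities

open Pool.Agent.H120R2.Clique

/-- For `(k, c) = (6, 0.81673), (8, 0.86811), (10, 0.89674), (12, 0.91494)` the limit `π(K_{k+1}^k)`
of `ex(n, K_{k+1}^k) / C(n,k)` exists and is at most `c`. -/
theorem result (k : ℕ) (c : ℝ)
    (h : (k = 6 ∧ c = 0.81673) ∨ (k = 8 ∧ c = 0.86811) ∨ (k = 10 ∧ c = 0.89674) ∨
      (k = 12 ∧ c = 0.91494)) :
    Tendsto (fun n : ℕ => (ex n k (k + 1) : ℝ) / (n.choose k : ℝ)) atTop
      (𝓝 (turanDensity k (k + 1))) ∧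
    turanDensity k (k + 1) ≤ c := by
  refine ⟨ratio_tendsto k (k + 1), ?_⟩
  rcases h with ⟨rfl, rfl⟩ | ⟨rfl, rfl⟩ | ⟨rfl, rfl⟩ | ⟨rfl, rfl⟩
  · exact Pool.Agent.R81.EV.K6.main
  · exact Pool.Agent.R81.EV.K8.main
  · exact Pool.Agent.R81.EV.K10.main
  · exact Pool.Agent.R81.EV.K12.main

end Pool.Agent.Results.MP_a4d830_co.EvenUniformities
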