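import Pool.Agent.R81.Sid.One

/-!
# Counting 3-partite 3-graphs: an exponent linear in the number of edges up to one sum

Let `F` be a 3-graph with a partition of its vertices into three classes such that every edge meets
every class in one vertex. For a vertex `b` of the class `1` let `d₀(b)` and `d₂(b)` be the numbers of
vertices of the classes `0` and `2` which are in a common edge with `b`. For every 3-graph `G` with
`n` vertices and `p n³` edges we prove
`hom(F, G) ≥ p ^ (10 e(F) + 4 ∑ d₀(b) d₂(b)) n ^ v(F)`, the sum over the vertices `b` of the class `1`.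

So `hom(F, G) ≥ p ^ ((10 + 4 K) e(F)) n ^ v(F)` if `d₀(b) d₂(b) ≤ K deg(b)` for all `b` in the class
`1`, for instance if the vertices of this class have degree at most `K`, the degrees of the other
vertices being arbitrary, or if their link graphs have density at least `1/K`.

Outline. Start with a uniformly random ordered edge `(h₀, h₁, h₂)` of `G`. Replace the hidden vertices
by the vertices of `F` class by class: every vertex `v` in the class `j` becomes a conditionally
independent copy of `h_j` given the hidden vertices of the later classes and the neighbours of `v` in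
the earlier classes. The entropy which is lost at `v` is at most `β(v) log (1/p)`, where `β(v)` is
`1 + 2 ∑ β(u)`, the sum over these neighbours. The sum of all `β(v)` is estimated.
-/

set_option autoImplicit false

namespace Pool.Agent.Results.MP_af588c_co.OneClass

open Finset Pool.Agent.R81.Sid

variable {W : Type} [Fintype W] [DecidableEq W]

theorem card_le_single {n : ℕ} (G : Finset (Finset (Fin n))) (hG : ∀ e ∈ G, e.card = 3) :
    G.card ≤ homCount (singleEdge 3) G := by
  classical
  unfold homCount
  have h : G ⊆ (univ.filter fun φ : Fin 3 → Fin n => ∀ e ∈ singleEdge 3, e.image φ ∈ G).image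
      fun φ => univ.image φ := by
    intro e he
    have h1 : univ.image (e.orderEmbOfFin (hG e he)) = e := by
      rw [image_orderEmbOfFin_univ]
    rw [mem_image]
    refine ⟨e.orderEmbOfFin (hG e he), ?_, h1⟩
    rw [mem_filter]
    refine ⟨mem_univ _, ?_⟩
    intro e' he'
    rw [singleEdge, mem_singleton] at he'
    rw [he', h1]
    exact he
  exact (card_le_card h).trans card_image_le

theorem main (F : Finset (Finset W)) (c : W → Fin 3)
    (hc : ∀ e ∈ F, ∀ k, (e.filter fun w => c w = k).card = 1) (n : ℕ)
    (G : Finset (Finset (Fin n))) (hG : ∀ e ∈ G, e.card = 3) :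
    ((G.card : ℝ) / (n : ℝ) ^ 3) ^ expo F c * (n : ℝ) ^ Fintype.card W ≤ homCount F G := by
  classical
  rcases F.eq_empty_or_nonempty with rfl | hne
  · have h1 : expo (∅ : Finset (Finset W)) c = 0 := by
      have : ∀ b, classDeg (∅ : Finset (Finset W)) c 0 b = 0 := by
        intro b
        unfold classDeg
        rw [card_eq_zero, filter_eq_empty_iff]
        rintro u - ⟨-, e, he, -⟩
        exact notMem_empty e he
      unfold expo
      simp [this]
    have h2 : homCount (∅ : Finset (Finset W)) G = n ^ Fintype.card W := by
      unfold homCount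
      have : (univ.filter fun φ : W → Fin n => ∀ e ∈ (∅ : Finset (Finset W)), e.image φ ∈ G) =
          univ := by
        rw [filter_eq_self]
        intro φ _ e he
        exact absurd he (notMem_empty e)
      rw [this, card_univ, Fintype.card_fun, Fintype.card_fin]
    rw [h1, h2, pow_zero, one_mul]
    push_cast
    exact le_rfl
  have hX : expo F c ≠ 0 := by
    have := hne.card_pos
    unfold expo
    omega
  rcases Nat.eq_zero_or_pos n with rfl | hn
  · simp [zero_pow hX]
  have : Nonempty (Fin n) := ⟨⟨0, hn⟩⟩
  have hnR : (0 : ℝ) < n := by exact_mod_cast hn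
  set p := homDensity (singleEdge 3) G with hp
  have hp1 : p < 1 := singleEdge_lt_one (by norm_num) G hG
  have hle : (G.card : ℝ) / (n : ℝ) ^ 3 ≤ p := by
    rw [hp]
    unfold homDensity
    rw [Fintype.card_fin, Fintype.card_fin]
    apply div_le_div_of_nonneg_right _ (by positivity)
    exact_mod_cast card_le_single G hG
  have h0 : (0 : ℝ) ≤ (G.card : ℝ) / (n : ℝ) ^ 3 := by positivity
  rcases (h0.trans hle).lt_or_eq with hppos | hp0
  · have hl1 : Real.log (1 / p) = -Real.log p := by rw [one_div, Real.log_inv]
    have hlog : Real.log p < 0 := Real.log_neg hppos hp1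
    have hI := invW_all F G c hc (bt F c) (fun v => bt_nonneg v)
      (by rw [hl1]; linarith) hppos (fun v => bt_step v) (verts F).card (verts F) rfl
      (Subset.refl _) (fun v _ u hu _ => hu)
    obtain ⟨h2, h3⟩ := density_of_invW F G c _ _ hI
    have h4 := total_le hne hc
    have h5 : -Real.log (homDensity F G) ≤ (expo F c : ℝ) * -Real.log p := by
      rw [← hp, hl1] at h3
      exact h3.trans (mul_le_mul_of_nonneg_right h4 (by linarith))
    have h6 : p ^ expo F c ≤ homDensity F G := by
      rw [← Real.log_le_log_iff (by positivity) h2, Real.log_pow]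
      linarith
    have h7 : ((G.card : ℝ) / (n : ℝ) ^ 3) ^ expo F c ≤ homDensity F G :=
      (pow_le_pow_left₀ h0 hle _).trans h6
    have h8 : (homCount F G : ℝ) = homDensity F G * (n : ℝ) ^ Fintype.card W := by
      unfold homDensity
      rw [Fintype.card_fin, div_mul_cancel₀]
      positivity
    rw [h8]
    exact mul_le_mul_of_nonneg_right h7 (by positivity)
  · have h1 : (G.card : ℝ) / (n : ℝ) ^ 3 = 0 := le_antisymm (hle.trans hp0.symm.le) h0
    rw [h1, zero_pow hX, zero_mul]
    exact Nat.cast_nonneg _

/-- Let `F` be a 3-graph on `W` and `c` a partition of `W` into three classes such that every edge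
meets every class in one vertex, and let `G` be a 3-graph on `n` vertices with `p n³` edges.

(1) `hom(F, G) ≥ p ^ X n ^ v(F)` with `X = 10 e(F) + 4 ∑ d₀(b) d₂(b)`, the sum over the vertices `b` of
class `1`, where `d_k(b)` is the number of vertices of class `k` in a common edge with `b`.

(2) If `d₀(b) d₂(b) ≤ K deg(b)` for all vertices `b` of class `1` (for instance if their degrees are at
most `K`), then `hom(F, G) ≥ p ^ ((10 + 4 K) e(F)) n ^ v(F)`. -/
theorem result (F : Finset (Finset W)) (c : W → Fin 3)
    (hc : ∀ e ∈ F, ∀ k, (e.filter fun w => c w = k).card = 1) (n : ℕ)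
    (G : Finset (Finset (Fin n))) (hG : ∀ e ∈ G, e.card = 3) :
    ((G.card : ℝ) / (n : ℝ) ^ 3) ^ (10 * F.card +
        4 * ∑ b ∈ univ.filter (fun b => c b = 1), classDeg F c 0 b * classDeg F c 2 b) *
      (n : ℝ) ^ Fintype.card W ≤ homCount F G ∧
    ∀ K : ℕ, (∀ b, c b = 1 → classDeg F c 0 b * classDeg F c 2 b ≤
        K * (F.filter fun e => b ∈ e).card) →
      ((G.card : ℝ) / (n : ℝ) ^ 3) ^ ((10 + 4 * K) * F.card) * (n : ℝ) ^ Fintype.card W ≤
        homCount F G := by
  have h1 := main F c hc n G hG
  refine ⟨h1, fun K hK => ?_⟩
  have h2 : expo F c ≤ (10 + 4 * K) * F.card := by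
    have h3 : ∑ b ∈ univ.filter (fun b => c b = 1), classDeg F c 0 b * classDeg F c 2 b ≤
        ∑ b ∈ univ.filter (fun b => c b = 1), K * dg F b :=
      sum_le_sum fun b hb => hK b (mem_filter.1 hb).2
    rw [← mul_sum, sum_dg hc] at h3
    unfold expo
    nlinarith
  refine le_trans (mul_le_mul_of_nonneg_right ?_ (by positivity)) h1
  have h4 : (0 : ℝ) ≤ (G.card : ℝ) / (n : ℝ) ^ 3 := by positivity
  refine pow_le_pow_of_le_one h4 ?_ h2
  rcases Nat.eq_zero_or_pos n with rfl | hn
  · simp
  have : Nonempty (Fin n) := ⟨⟨0, hn⟩⟩
  have hp1 := (singleEdge_lt_one (r := 3) (by norm_num) G hG).le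
  refine le_trans ?_ hp1
  unfold homDensity
  rw [Fintype.card_fin, Fintype.card_fin]
  apply div_le_div_of_nonneg_right _ (by positivity)
  exact_mod_cast card_le_single G hG

end Pool.Agent.Results.MP_af588c_co.OneClass
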