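import Pool.Agent.R81.TC.Ded
import Pool.Agent.R81.TC.PChk
import Pool.Agent.R81.TC.CyChk
import Pool.Agent.R81.TC.SoChk
import Pool.Agent.R81.TC.TaChk
import Pool.Agent.R81.TC.OneChk

/-!
# Turán's bound for 3-graphs with a partition into three classes and missing kinds of edges

Let `H` be a `K_4^3`-free 3-graph on `n` vertices whose vertex set is divided into three classes
`V_0, V_1, V_2` of any sizes. There are six kinds of edges with vertices in two classes, a kind being
given by an ordered pair `(i, j)`: two vertices in `V_i` and one in `V_j`. In Turán's construction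
three of these kinds do not occur. We prove:

* if any two of the six kinds do not occur, and any two vertices of one class form an edge with at
  most one third of the vertices of this class (for instance, if the three classes are independent),
  then `|H| ≤ 5/54 n^3`, as conjectured for all `K_4^3`-free 3-graphs; nothing is assumed on the
  edges with vertices in all three classes;
* if one of the six kinds does not occur, any two vertices of one class form an edge with at most a
  quarter of this class, and any two vertices of different classes form an edge with at least one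
  sixth of the third class, then `|H| ≤ 5/54 n^3`.

Both are deduced from inequalities which hold for all `K_4^3`-free 3-graphs and all divisions into
three classes. The proof is by flag algebra computations of order five for 3-graphs with vertices of
three colours (there are five certificates, four of them for the four pairs of kinds), checked by
the kernel.
-/

set_option autoImplicit false
open Finset

namespace Pool.Agent.R81.Out.TwoMissingKinds

open Pool.Agent.R81.TC

variable {n : ℕ}

/-- The 3-graph `H` has no four vertices spanning all four triples. -/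
def K43Free (H : Finset (Finset (Fin n))) : Prop :=
  ∀ S : Finset (Fin n), S.card = 4 → ∃ T ⊆ S, T.card = 3 ∧ T ∉ H

/-- Any two vertices of the same class form an edge with at most `a' / b'` of the vertices of this
class. -/
def InnerAtMost (H : Finset (Finset (Fin n))) (c : Fin n → Fin 3) (a' b' : ℕ) : Prop :=
  ∀ x y, x ≠ y → c x = c y → b' * innerDegree H c x y ≤ a' * ownClass c x

/-- Any two vertices of different classes form an edge with at least `a / b` of the vertices of the
third class. -/
def TransversalAtLeast (H : Finset (Finset (Fin n))) (c : Fin n → Fin 3) (a b : ℕ) : Prop :=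
  ∀ x y, c x ≠ c y → a * thirdClass c x y ≤ b * transversalDegree H c x y

open Pool.Agent.Y439.Col

theorem violation_zero {H : Finset (Finset (Fin n))} (h3 : ∀ e ∈ H, e.card = 3)
    {c : Fin n → Fin 3} {a b a' b' : ℕ} (h : TransversalAtLeast H c a b)
    (h' : InnerAtMost H c a' b') : violation H c a b a' b' = 0 := by
  unfold violation
  refine sum_eq_zero fun x _ => sum_eq_zero fun y _ => ?_
  split_ifs with hxy
  · by_cases e : x = y
    · subst e
      have : innerDegree H c x x = 0 := by
        unfold innerDegree
        rw [card_eq_zero, filter_eq_empty_iff]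
        rintro z _ ⟨_, hz⟩
        exact (distinct_of_mem h3 hz).1 rfl
      rw [this]
      simp
    · exact Nat.sub_eq_zero_of_le (h' x y e hxy)
  · exact Nat.sub_eq_zero_of_le (h x y hxy)

section

variable {H : Finset (Finset (Fin n))} (h3 : ∀ e ∈ H, e.card = 3) (hK : K43Free H)
include h3 hK

theorem caseP (c : Fin n → Fin 3) :
    54 * H.card ≤ 5 * n ^ 3 + 277 * (kindEdges H c 0 2 ∪ kindEdges H c 1 0).card +
      45 * violation H c 0 0 1 3 := by
  have h := P.final (fun v => (c v : ℕ)) (fun x => (c x).isLt) (tri H) (tri_le H) (tri_s1 H)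
    (tri_s2 H) (tri_k4 h3 hK)
  rw [dfc_eq] at h
  exact edges_of h3 300000 3528798 13808024 45 277 _ _ _ (by norm_num) (by norm_num) (by norm_num)
    (bd_sum_le H h3 c (by decide) (by decide)) h

theorem caseCy (c : Fin n → Fin 3) :
    54 * H.card ≤ 5 * n ^ 3 + 277 * (kindEdges H c 0 1 ∪ kindEdges H c 1 0).card +
      45 * violation H c 0 0 1 3 := by
  have h := Cy.final (fun v => (c v : ℕ)) (fun x => (c x).isLt) (tri H) (tri_le H) (tri_s1 H)
    (tri_s2 H) (tri_k4 h3 hK)
  rw [dfc_eq] at h
  exact edges_of h3 300000 3721048 8357750 45 277 _ _ _ (by norm_num) (by norm_num) (by norm_num)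
    (bd_sum_le H h3 c (by decide) (by decide)) h

theorem caseSo (c : Fin n → Fin 3) :
    54 * H.card ≤ 5 * n ^ 3 + 277 * (kindEdges H c 0 1 ∪ kindEdges H c 0 2).card +
      45 * violation H c 0 0 1 3 := by
  have h := So.final (fun v => (c v : ℕ)) (fun x => (c x).isLt) (tri H) (tri_le H) (tri_s1 H)
    (tri_s2 H) (tri_k4 h3 hK)
  rw [dfc_eq] at h
  exact edges_of h3 300000 4463479 10982278 45 277 _ _ _ (by norm_num) (by norm_num) (by norm_num)
    (bd_sum_le H h3 c (by decide) (by decide)) h

theorem caseTa (c : Fin n → Fin 3) :
    54 * H.card ≤ 5 * n ^ 3 + 277 * (kindEdges H c 0 1 ∪ kindEdges H c 2 1).card +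
      45 * violation H c 0 0 1 3 := by
  have h := Ta.final (fun v => (c v : ℕ)) (fun x => (c x).isLt) (tri H) (tri_le H) (tri_s1 H)
    (tri_s2 H) (tri_k4 h3 hK)
  rw [dfc_eq] at h
  exact edges_of h3 300000 3499521 9674268 45 277 _ _ _ (by norm_num) (by norm_num) (by norm_num)
    (bd_sum_le H h3 c (by decide) (by decide)) h

theorem caseOne (c : Fin n → Fin 3) :
    54 * H.card ≤ 5 * n ^ 3 + 200 * (kindEdges H c 0 2).card + 78 * violation H c 1 6 1 4 := by
  have h := One.final (fun v => (c v : ℕ)) (fun x => (c x).isLt) (tri H) (tri_le H) (tri_s1 H)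
    (tri_s2 H) (tri_k4 h3 hK)
  rw [dfc_eq] at h
  have hb := bd_sum_le H h3 c (i := 0) (j := 2) (k := 0) (l := 2) (by decide) (by decide)
  rw [union_self] at hb
  exact edges_of h3 600000 15441752 19981676 78 200 _ _ _ (by norm_num) (by norm_num) (by norm_num)
    hb h

theorem two (c : Fin n → Fin 3) (i j k l : Fin 3) (hij : i ≠ j) (hkl : k ≠ l)
    (hne : ¬ (i = k ∧ j = l)) :
    54 * H.card ≤ 5 * n ^ 3 + 277 * (kindEdges H c i j ∪ kindEdges H c k l).card +
      45 * violation H c 0 0 1 3 := by
  obtain ⟨σ, hσ⟩ := pairs i j k l hij hkl hne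
  have e1 := kindEdges_perm H c σ i j
  have e2 := kindEdges_perm H c σ k l
  have e3 := violation_perm H c σ 0 0 1 3
  rcases hσ with ⟨a1, a2, a3, a4⟩ | ⟨a1, a2, a3, a4⟩ | ⟨a1, a2, a3, a4⟩ | ⟨a1, a2, a3, a4⟩ |
    ⟨a1, a2, a3, a4⟩
  · have h := caseP h3 hK (fun v => σ (c v))
    rw [a1, a2] at e1
    rw [a3, a4] at e2
    rwa [e1, e2, e3] at h
  · have h := caseP h3 hK (fun v => σ (c v))
    rw [a3, a4] at e1
    rw [a1, a2] at e2
    rwa [e1, e2, e3, union_comm] at h
  · have h := caseCy h3 hK (fun v => σ (c v))
    rw [a1, a2] at e1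
    rw [a3, a4] at e2
    rwa [e1, e2, e3] at h
  · have h := caseSo h3 hK (fun v => σ (c v))
    rw [a1, a2] at e1
    rw [a3, a4] at e2
    rwa [e1, e2, e3] at h
  · have h := caseTa h3 hK (fun v => σ (c v))
    rw [a1, a2] at e1
    rw [a3, a4] at e2
    rwa [e1, e2, e3] at h

theorem one (c : Fin n → Fin 3) (i j : Fin 3) (hij : i ≠ j) :
    54 * H.card ≤ 5 * n ^ 3 + 200 * (kindEdges H c i j).card + 78 * violation H c 1 6 1 4 := by
  obtain ⟨σ, a1, a2⟩ := single i j hij
  have e1 := kindEdges_perm H c σ i j
  have h := caseOne h3 hK (fun v => σ (c v))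
  rw [a1, a2] at e1
  rwa [e1, violation_perm] at h

end

/-- Let `H` be a `K_4^3`-free 3-graph on `n` vertices and `c` a division of its vertices into three
classes. For any two different kinds `(i, j)` and `(k, l)`, `54 |H|` is at most `5 n^3`, plus 277
times the number of edges of the two kinds, plus 45 times the total violation of the condition that
two vertices of one class form an edge with at most a third of this class. For any kind `(i, j)`,
`54 |H|` is at most `5 n^3`, plus 200 times the number of edges of this kind, plus 78 times the total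
violation of the conditions with the fractions `1/6` and `1/4`. In particular `54 |H| ≤ 5 n^3` if
there are no such edges and no violations. -/
theorem result (n : ℕ) (H : Finset (Finset (Fin n))) (h3 : ∀ e ∈ H, e.card = 3) (hK : K43Free H)
    (c : Fin n → Fin 3) :
    (∀ i j k l : Fin 3, i ≠ j → k ≠ l → ¬ (i = k ∧ j = l) →
      54 * H.card ≤ 5 * n ^ 3 + 277 * (kindEdges H c i j ∪ kindEdges H c k l).card +
        45 * violation H c 0 0 1 3 ∧
      (kindEdges H c i j = ∅ → kindEdges H c k l = ∅ → InnerAtMost H c 1 3 →
        54 * H.card ≤ 5 * n ^ 3)) ∧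
    (∀ i j : Fin 3, i ≠ j →
      54 * H.card ≤ 5 * n ^ 3 + 200 * (kindEdges H c i j).card + 78 * violation H c 1 6 1 4 ∧
      (kindEdges H c i j = ∅ → TransversalAtLeast H c 1 6 → InnerAtMost H c 1 4 →
        54 * H.card ≤ 5 * n ^ 3)) := by
  refine ⟨fun i j k l hij hkl hne => ⟨two h3 hK c i j k l hij hkl hne, fun e1 e2 e3 => ?_⟩,
    fun i j hij => ⟨one h3 hK c i j hij, fun e1 e2 e3 => ?_⟩⟩
  · have h := two h3 hK c i j k l hij hkl hne
    have h0 : TransversalAtLeast H c 0 0 := fun x y _ => by simp
    rw [e1, e2, violation_zero h3 h0 e3, union_empty, card_empty] at h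
    omega
  · have h := one h3 hK c i j hij
    rw [e1, violation_zero h3 e2 e3, card_empty] at h
    omega

end Pool.Agent.R81.Out.TwoMissingKinds
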